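import Pool.Agent.H29.FX.Targets

/-!
# (CVR) every solution belongs to a class
-/

set_option autoImplicit false

open Finset MvPolynomial Filter
open Pool.Agent.H29.FX

namespace Pool.Agent.H90.TFX

/-- logarithms are small -/
private lemma cvr_log (A δ : ℝ) (hδ : 0 < δ) :
    ∀ᶠ Y : ℝ in atTop, 1 + A * Real.log Y ≤ Y ^ δ := by
  have h1 : (fun Y : ℝ => 1 + A * Real.log Y) =o[atTop] fun Y : ℝ => Y ^ δ := by
    refine Asymptotics.IsLittleO.add ?_ ((isLittleO_log_rpow_atTop hδ).const_mul_left A)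
    exact Asymptotics.isLittleO_const_left.2 (Or.inr
      (tendsto_norm_atTop_atTop.comp (tendsto_rpow_atTop hδ)))
  filter_upwards [h1.bound one_pos, eventually_ge_atTop (1 : ℝ)] with Y h2 h3
  rw [one_mul] at h2
  calc 1 + A * Real.log Y ≤ ‖1 + A * Real.log Y‖ := Real.le_norm_self _
    _ ≤ ‖Y ^ δ‖ := h2
    _ = Y ^ δ := Real.norm_of_nonneg (Real.rpow_nonneg (by linarith) δ)

theorem pf_CVR (hBND : T_BND) (hTYP : T_TYP) (hPRI : T_PRI) : T_CVR := by
  intro n B δ c hδ hδ1 hc hcδ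
  obtain ⟨B', hB'⟩ := hBND n B
  obtain ⟨Yp, hYp2, hYp⟩ := hPRI
  obtain ⟨Y₁, hY₁⟩ := eventually_atTop.1 ((cvr_log (3 * B') (δ / 4) (by linarith)).and
    ((tendsto_rpow_atTop hδ).eventually_ge_atTop Yp))
  refine ⟨(B' : ℝ) + 1, max 2 Y₁, by positivity, le_max_left _ _, ?_⟩
  intro Y M' H pt e u L z hY hM hH he hG hq hS hJ
  have hY2 : 2 ≤ Y := (le_max_left _ _).trans hY
  obtain ⟨hlog, hYδ⟩ := hY₁ Y ((le_max_right _ _).trans hY)
  have hY1 : 1 ≤ Y := by linarith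
  have hY0 : 0 < Y := by linarith
  have hc8 : c ≤ δ / 8 := by
    refine hcδ.trans ?_
    apply div_le_div_of_nonneg_left hδ.le (by norm_num)
    have : (0 : ℝ) ≤ n := Nat.cast_nonneg n
    linarith
  set s := ⌊Y ^ (2 * c)⌋₊ with hs
  have hs1 : (s : ℝ) ≤ Y ^ (δ / 4) := by
    refine (Nat.floor_le (Real.rpow_nonneg hY0.le _)).trans ?_
    exact Real.rpow_le_rpow_of_exponent_le hY1 (by linarith)
  have hsY : (s : ℝ) ≤ Y := by
    refine hs1.trans ?_
    calc Y ^ (δ / 4) ≤ Y ^ (1 : ℝ) := Real.rpow_le_rpow_of_exponent_le hY1 (by linarith)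
      _ = Y := Real.rpow_one Y
  have hM0 : 0 < M' := by
    have : (0 : ℝ) ≤ B' := Nat.cast_nonneg B'
    linarith
  obtain ⟨hb1, hb2, hb3⟩ := hB' Y M' H s pt e u L z hY2 hM0 hsY hG hq he hS
  have hKM : 2 * Y ^ B' ≤ Y ^ M' := by
    calc 2 * Y ^ B' ≤ Y * Y ^ B' := by gcongr
      _ = Y ^ ((B' : ℝ) + 1) := by
        rw [Real.rpow_add hY0, Real.rpow_natCast, Real.rpow_one, mul_comm]
      _ ≤ Y ^ M' := Real.rpow_le_rpow_of_exponent_le hY1 hM
  have hT := hTYP n s pt e u L Y M' H (Y ^ B') z hG (fun v => (he v).1) hS hb2 hKM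
  have hlogY : 0 ≤ Real.log Y := Real.log_nonneg hY1
  have hH0 : 0 < H := by
    obtain ⟨a, ha⟩ := hS.big
    exact (Real.rpow_pos_of_pos hY0 M').trans (ha.trans_le (hS.sml a))
  have hQ : 1 ≤ Y ^ (δ / 4) := Real.one_le_rpow hY1 (by linarith)
  have hB0 : (0 : ℝ) ≤ B' := Nat.cast_nonneg B'
  -- the main numerical inequality
  have hmain : Y ^ c + B' * (s + 2) * Real.log Y ≤ Y ^ δ := by
    have h1 : Y ^ c ≤ Y ^ (δ / 4) := Real.rpow_le_rpow_of_exponent_le hY1 (by linarith)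
    have h2 : (B' : ℝ) * (s + 2) * Real.log Y ≤ B' * (3 * Y ^ (δ / 4)) * Real.log Y := by
      gcongr
      linarith
    calc Y ^ c + B' * (s + 2) * Real.log Y
        ≤ Y ^ (δ / 4) + B' * (3 * Y ^ (δ / 4)) * Real.log Y := add_le_add h1 h2
      _ = Y ^ (δ / 4) * (1 + 3 * B' * Real.log Y) := by ring
      _ ≤ Y ^ (δ / 4) * Y ^ (δ / 4) := by gcongr
      _ = Y ^ (δ / 4 + δ / 4) := (Real.rpow_add hY0 _ _).symm
      _ ≤ Y ^ δ := Real.rpow_le_rpow_of_exponent_le hY1 (by linarith)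
  have hpow : (Y ^ δ) ^ 2 = Y ^ (2 * δ) := by
    rw [← Real.rpow_natCast (Y ^ δ) 2, ← Real.rpow_mul hY0.le]
    congr 1
    push_cast
    ring
  have hJlog : Real.log |((eval z (TJ L) : ℤ) : ℝ)| ≤ B' * Real.log Y := by
    have h0 : 0 < |((eval z (TJ L) : ℤ) : ℝ)| := abs_pos.2 (by exact_mod_cast hJ)
    calc Real.log |((eval z (TJ L) : ℤ) : ℝ)| ≤ Real.log (Y ^ B') := Real.log_le_log h0 hb1
      _ = B' * Real.log Y := by rw [Real.log_pow]
  rcases hT with hF | ⟨o, j, hj, ho, hnz⟩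
  · obtain ⟨p, hp1, hp2, hp3, hp4⟩ := hYp (Y ^ δ) (eval z (TJ L)) hYδ hJ (by
      refine hJlog.trans (le_trans ?_ hmain)
      have h1 : 0 ≤ Y ^ c := Real.rpow_nonneg hY0.le c
      have h2 : (B' : ℝ) * Real.log Y ≤ B' * (s + 2) * Real.log Y := by
        have h3 : (B' : ℝ) * 1 ≤ B' * (s + 2) := by
          have : (0 : ℝ) ≤ s := Nat.cast_nonneg s
          gcongr
          linarith
        rw [mul_one] at h3
        exact mul_le_mul_of_nonneg_right h3 hlogY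
      linarith)
    exact ⟨p, hp1, hp2, hpow ▸ hp3, hp4, Or.inl hF⟩
  · have hlog2 : Real.log |((eval z (TD L j (gt pt e u L o)) : ℤ) : ℝ)| ≤
        Y ^ c + B' * (s + 1) * Real.log Y := by
      have h0 : 0 < |((eval z (TD L j (gt pt e u L o)) : ℤ) : ℝ)| :=
        abs_pos.2 (by exact_mod_cast hnz)
      have h1 := Real.log_le_log h0 (hb3 o j)
      rw [Real.log_mul hH0.ne' (pow_pos hY0 _).ne', Real.log_pow] at h1
      have h2 : Real.log H ≤ Y ^ c := by
        calc Real.log H ≤ Real.log (Real.exp (Y ^ c)) := Real.log_le_log hH0 hH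
          _ = Y ^ c := Real.log_exp _
      push_cast at h1
      linarith
    obtain ⟨p, hp1, hp2, hp3, hp4⟩ := hYp (Y ^ δ)
      (eval z (TJ L) * eval z (TD L j (gt pt e u L o))) hYδ (mul_ne_zero hJ hnz) (by
        rw [Int.cast_mul, abs_mul, Real.log_mul (abs_pos.2 (by exact_mod_cast hJ)).ne'
          (abs_pos.2 (by exact_mod_cast hnz)).ne']
        have h3 : (B' : ℝ) * (s + 2) * Real.log Y =
          B' * Real.log Y + B' * (s + 1) * Real.log Y := by ring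
        linarith)
    refine ⟨p, hp1, hp2, hpow ▸ hp3, fun h => hp4 (h.mul_right _), Or.inr ⟨o, j, hj, ho,
      fun h => hp4 (h.mul_left _)⟩⟩

end Pool.Agent.H90.TFX
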