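import Pool.Agent.H29.FX.Targets

/-!
# (TYP) flat points and points with an additional equation
-/

set_option autoImplicit false

open Finset MvPolynomial
open Pool.Agent.H29.FX

namespace Pool.Agent.H90.TFX

/-- the relation of the logarithmic derivatives at a point where a derivative vanishes -/
private lemma typ_rel (hPID : T_PID) (n : ℕ) (pt : Fin n → Fin 3) (e : Fin n → ℕ)
    (u : Fin 3 → ℤ) (D : Dr n) (z : Fin n → ℤ) (he : ∀ v, 1 ≤ e v)
    (h : eval z (D (eqn pt e u)) = 0) :
    ∑ a, (u a * eval z (en pt e a)) * eval z (lg pt e D a) = 0 := by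
  have key : (∏ v, X v) * D (eqn pt e u) = ∑ a, C (u a) * (en pt e a * lg pt e D a) := by
    unfold eqn
    rw [map_sum, Finset.mul_sum]
    refine Finset.sum_congr rfl fun a _ => ?_
    rw [← hPID n pt e D a he, MvPolynomial.C_mul', Derivation.map_smul, MvPolynomial.C_mul',
      mul_smul_comm]
  have h2 := congrArg (eval z) key
  rw [map_mul, h, mul_zero, map_sum] at h2
  rw [h2]
  refine Finset.sum_congr rfl fun a _ => ?_
  rw [map_mul, map_mul, eval_C, mul_assoc]

theorem pf_TYP (hALG : T_ALG) (hDWB : T_DWB) (hPID : T_PID) (hMAS : T_MAS) : T_TYP := by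
  intro n s pt e u L Y M H K z hG he hS hK hKM
  obtain ⟨-, hA2, -, -, -⟩ := hALG n L hG
  have hmem : ∀ (j : Fin n) (f : Pl n), eval z (TD L j f) ≠ 0 → j ∈ TI L := by
    intro j f h
    by_contra hj
    rw [hA2 j hj] at h
    exact h (by simp)
  by_cases h1 : ∃ j, eval z (TD L j (eqn pt e u)) ≠ 0
  · obtain ⟨j, hj⟩ := h1
    exact Or.inr ⟨none, j, hmem j _ hj, hS.sum, hj⟩
  push Not at h1
  have hsum : ∑ a, (u a * eval z (en pt e a)) = 0 := by
    have h := hS.sum
    unfold eqn at h
    rw [map_sum] at h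
    rw [← h]
    refine Finset.sum_congr rfl fun a _ => ?_
    rw [map_mul, eval_C]
  have heq : ∀ (j : Fin n) (a b : Fin 3),
      eval z (lg pt e (TD L j) a) = eval z (lg pt e (TD L j) b) := by
    intro j
    refine hMAS (fun a => u a * eval z (en pt e a)) (fun a => eval z (lg pt e (TD L j) a))
      ⌊K⌋ hsum hS.cop (typ_rel hPID n pt e u (TD L j) z he (h1 j)) ?_ ?_
    · obtain ⟨a, ha⟩ := hS.big
      refine ⟨a, ?_⟩
      have h2 : (((2 * ⌊K⌋ : ℤ)) : ℝ) < ((|u a * eval z (en pt e a)| : ℤ) : ℝ) := by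
        rw [Int.cast_abs]
        have h3 : (⌊K⌋ : ℝ) ≤ K := Int.floor_le K
        push_cast at ha ⊢
        linarith
      exact_mod_cast h2
    · intro a
      rw [Int.le_floor, Int.cast_abs]
      exact hK j a
  by_cases hF : Flat pt e L s z
  · exact Or.inl hF
  right
  obtain ⟨hW0, -, -, -, hW5⟩ := hDWB n (TD L)
  have hex : ∃ m : ℕ, ∃ (i : Fin n) (a b : Fin 3) (α : Fin n → ℕ), ∑ v, α v = m ∧ m < s ∧
      eval z (dw (TD L) α (lg pt e (TD L i) a - lg pt e (TD L i) b)) ≠ 0 := by
    unfold Flat at hF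
    push Not at hF
    obtain ⟨i, a, b, α, h2, h3⟩ := hF
    exact ⟨_, i, a, b, α, rfl, h2, h3⟩
  classical
  obtain ⟨i, a, b, α, h2, h3, h4⟩ := Nat.find_spec hex
  have hne : (univ.filter (fun v => 0 < α v)).Nonempty := by
    by_contra hc
    rw [Finset.not_nonempty_iff_eq_empty, Finset.filter_eq_empty_iff] at hc
    have h5 : α = 0 := by
      funext v
      have := hc (mem_univ v)
      simp only [Pi.zero_apply]
      omega
    rw [h5, hW0, map_sub, heq i a b, sub_self] at h4
    exact h4 rfl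
  set j := (univ.filter (fun v => 0 < α v)).min' hne with hj
  have hj1 : 0 < α j := by
    have := Finset.min'_mem _ hne
    rw [← hj] at this
    exact (Finset.mem_filter.1 this).2
  have hj2 : ∀ v, v < j → α v = 0 := by
    intro v hv
    by_contra hc
    have h5 : j ≤ v := Finset.min'_le _ _ (by simp; omega)
    exact absurd hv (not_lt.2 h5)
  set β : Fin n → ℕ := fun v => α v - (Pi.single j 1 : Fin n → ℕ) v with hβ
  have hαβ : α = β + Pi.single j 1 := by
    funext v
    rw [Pi.add_apply, hβ]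
    by_cases hv : v = j
    · subst hv
      simp only [Pi.single_eq_same]
      omega
    · simp [Pi.single_eq_of_ne hv]
  have hβ0 : ∀ v, v < j → β v = 0 := by
    intro v hv
    rw [hβ]
    simp only
    rw [hj2 v hv, Nat.zero_sub]
  have hsβ : ∑ v, β v + 1 = ∑ v, α v := by
    rw [hαβ]
    simp only [Pi.add_apply, Finset.sum_add_distrib]
    rw [Finset.sum_pi_single' j 1 univ]
    simp
  have hβs : ∀ v, β v < s := by
    intro v
    have h5 : β v ≤ ∑ v, β v := Finset.single_le_sum (fun _ _ => Nat.zero_le _) (mem_univ v)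
    omega
  have hz : eval z (dw (TD L) β (lg pt e (TD L i) a - lg pt e (TD L i) b)) = 0 := by
    by_contra hc
    exact Nat.find_min hex (m := ∑ v, β v) (by omega) ⟨i, a, b, β, rfl, by omega, hc⟩
  have hnz : eval z (TD L j (dw (TD L) β (lg pt e (TD L i) a - lg pt e (TD L i) b))) ≠ 0 := by
    rw [← hW5 β j _ hβ0, ← hαβ]
    exact h4
  exact ⟨some (i, a, b, fun v => ⟨β v, hβs v⟩), j, hmem j _ hnz, hz, hnz⟩

end Pool.Agent.H90.TFX
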